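import Mathlib
import Pool.Agent.K1H35.LK.Defs

/-! # The filtration of the free abelian group on string links (T11 of helper35's plan for
MP_5b16f0_gt) -/

set_option autoImplicit false

noncomputable section

namespace Pool.Agent.K1H3.LK

open Pool.Agent.K1H35.LK

/-! ## Generalities on `res` -/

theorem res_map {A B : Type} [AddCommGroup A] [AddCommGroup B] (φ : A →+ B) (f : Br → A)
    (S : List (ℕ × Br)) : ∀ y, res (fun b => φ (f b)) S y = φ (res f S y) := by
  induction S with
  | nil => intro y; rfl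
  | cons p S ih =>
    intro y
    obtain ⟨i, z⟩ := p
    simp only [res, ih, map_sub]

/-- The resolution with positive crossings. -/
def top : List (ℕ × Br) → Br → Br
  | [], y => y
  | (i, z) :: S, y => top S (y * s i * z)

theorem pm_top_congr (S : List (ℕ × Br)) : ∀ y y', pm y = pm y' → pm (top S y) = pm (top S y') := by
  induction S with
  | nil => intro y y' h; exact h
  | cons p S ih =>
    intro y y' h
    obtain ⟨i, z⟩ := p
    apply ih
    simp only [map_mul, h]

theorem pm_s_inv (i : ℕ) : pm (s i)⁻¹ = pm (s i) := by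
  rw [map_inv, pm_s, Equiv.swap_inv]

theorem sing_cons {N i : ℕ} {z y : Br} {S : List (ℕ × Br)} (h : Sing N ((i, z) :: S) y) :
    i + 1 < N ∧ z ∈ BN N ∧ y ∈ BN N ∧ (∀ p ∈ S, p.1 + 1 < N ∧ p.2 ∈ BN N) ∧
      Sing N S (y * s i * z) ∧ Sing N S (y * (s i)⁻¹ * z) := by
  obtain ⟨hy, hS⟩ := h
  have h1 := hS (i, z) (List.mem_cons_self ..)
  have h2 : ∀ p ∈ S, p.1 + 1 < N ∧ p.2 ∈ BN N := fun p hp => hS p (List.mem_cons_of_mem _ hp)
  have h3 : s i ∈ BN N := Subgroup.subset_closure ⟨i, h1.1, rfl⟩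
  exact ⟨h1.1, h1.2, hy, h2, ⟨(BN N).mul_mem ((BN N).mul_mem hy h3) h1.2, h2⟩,
    ⟨(BN N).mul_mem ((BN N).mul_mem hy ((BN N).inv_mem h3)) h1.2, h2⟩⟩

theorem res_congr {A : Type} [AddCommGroup A] {f g : Br → A} {N : ℕ} (S : List (ℕ × Br)) :
    ∀ y, Sing N S y → (∀ b ∈ BN N, pm b = pm (top S y) → f b = g b) → res f S y = res g S y := by
  induction S with
  | nil => intro y hy h; exact h y hy.1 rfl
  | cons p S ih =>
    intro y hy h
    obtain ⟨i, z⟩ := p
    obtain ⟨-, -, -, -, h1, h2⟩ := sing_cons hy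
    simp only [res]
    rw [ih _ h1 h, ih _ h2]
    intro b hb hbt
    apply h b hb
    rw [hbt]
    apply pm_top_congr
    rw [map_mul, map_mul, pm_s_inv, ← map_mul, ← map_mul]

theorem res_zero {A : Type} [AddCommGroup A] (S : List (ℕ × Br)) :
    ∀ y, res (fun _ => (0 : A)) S y = 0 := by
  induction S with
  | nil => intro y; rfl
  | cons p S ih =>
    intro y
    obtain ⟨i, z⟩ := p
    simp only [res, ih, sub_self]

/-- The image of a singular word under a homomorphism. -/
theorem res_hom {N N' : ℕ} (ψ : Br →* Br) (h1 : ∀ y ∈ BN N', ψ y ∈ BN N)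
    (h2 : ∀ i, i + 1 < N' → ∃ j w, j + 1 < N ∧ w ∈ BN N ∧ ψ (s i) = w * s j * w⁻¹)
    (S : List (ℕ × Br)) (hS : ∀ p ∈ S, p.1 + 1 < N' ∧ p.2 ∈ BN N') :
    ∃ (T : List (ℕ × Br)) (v : Br), v ∈ BN N ∧ T.length = S.length ∧
      (∀ p ∈ T, p.1 + 1 < N ∧ p.2 ∈ BN N) ∧
      ∀ (A : Type) [AddCommGroup A] (F : Br → A) (y : Br),
        res (fun b => F (ψ b)) S y = res F T (ψ y * v) := by
  induction S with
  | nil =>
    refine ⟨[], 1, (BN N).one_mem, rfl, by simp, ?_⟩
    intro A _ F y
    simp only [res, mul_one]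
  | cons p S ih =>
    obtain ⟨i, z⟩ := p
    obtain ⟨T, v, hv, hl, hT, hF⟩ := ih (fun p hp => hS p (List.mem_cons_of_mem _ hp))
    have h3 := hS (i, z) (List.mem_cons_self ..)
    obtain ⟨j, w, hj, hw, hψ⟩ := h2 i h3.1
    refine ⟨(j, w⁻¹ * ψ z * v) :: T, w, hw, by simp [hl], ?_, ?_⟩
    · intro p hp
      rcases List.mem_cons.mp hp with rfl | hp
      · exact ⟨hj, (BN N).mul_mem ((BN N).mul_mem ((BN N).inv_mem hw) (h1 _ h3.2)) hv⟩
      · exact hT p hp
    · intro A _ F y
      simp only [res]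
      rw [hF A F, hF A F]
      have e1 : ψ (y * s i * z) * v = ψ y * w * s j * (w⁻¹ * ψ z * v) := by
        rw [map_mul, map_mul, hψ]; group
      have e2 : ψ (y * (s i)⁻¹ * z) * v = ψ y * w * (s j)⁻¹ * (w⁻¹ * ψ z * v) := by
        rw [map_mul, map_mul, map_inv, hψ]; group
      rw [e1, e2]

theorem res_left {A : Type} [AddCommGroup A] (F : Br → A) (c : Br) (S : List (ℕ × Br)) :
    ∀ y, res (fun b => F (c * b)) S y = res F S (c * y) := by
  induction S with
  | nil => intro y; rfl
  | cons p S ih =>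
    intro y
    obtain ⟨i, z⟩ := p
    simp only [res, ih, mul_assoc]

/-- Concatenation of singular words. -/
theorem res_app {N : ℕ} (T : List (ℕ × Br)) (u : Br) (hu : u ∈ BN N)
    (hT : ∀ p ∈ T, p.1 + 1 < N ∧ p.2 ∈ BN N) (S : List (ℕ × Br))
    (hS : ∀ p ∈ S, p.1 + 1 < N ∧ p.2 ∈ BN N) :
    ∃ (R : List (ℕ × Br)) (v : Br), v ∈ BN N ∧ R.length = S.length + T.length ∧
      (∀ p ∈ R, p.1 + 1 < N ∧ p.2 ∈ BN N) ∧
      ∀ (A : Type) [AddCommGroup A] (F : Br → A) (y : Br),
        res (fun b => res F T (b * u)) S y = res F R (y * v) := by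
  induction S with
  | nil =>
    refine ⟨T, u, hu, by simp, hT, ?_⟩
    intro A _ F y
    simp only [res]
  | cons p S ih =>
    obtain ⟨i, z⟩ := p
    obtain ⟨R, v, hv, hl, hR, hF⟩ := ih (fun p hp => hS p (List.mem_cons_of_mem _ hp))
    have h3 := hS (i, z) (List.mem_cons_self ..)
    refine ⟨(i, z * v) :: R, 1, (BN N).one_mem, by simp [hl]; omega, ?_, ?_⟩
    · intro p hp
      rcases List.mem_cons.mp hp with rfl | hp
      · exact ⟨h3.1, (BN N).mul_mem h3.2 hv⟩
      · exact hR p hp
    · intro A _ F y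
      simp only [res]
      rw [hF A F, hF A F]
      simp only [mul_one, mul_assoc]

/-! ## Classes of string links -/

theorem cls_of_val {m : ℕ} {d : RD} (h : Val m d) : cls m d = uni (Quot.mk _ ⟨d, h⟩) := by
  unfold cls evS
  rw [dif_pos (show Val m ⟨d.k, d.b⟩ from h)]

theorem cls_of_not_val {m : ℕ} {d : RD} (h : ¬ Val m d) : cls m d = 0 := by
  unfold cls evS
  rw [dif_neg (show ¬ Val m ⟨d.k, d.b⟩ from h)]

theorem cls_of_Mk {m : ℕ} {d e : RD} (h : Mk m d e) : cls m d = cls m e := by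
  induction h with
  | rel d e h =>
    obtain ⟨hd, he, hde⟩ := h
    rw [cls_of_val hd, cls_of_val he]
    congr 1
    exact Quot.sound hde
  | refl d => rfl
  | symm d e _ ih => exact ih.symm
  | trans d e f _ _ ih1 ih2 => exact ih1.trans ih2

theorem J_succ_le (m D : ℕ) : J m (D + 1) ≤ J m D := by
  unfold J
  rw [AddSubgroup.closure_le]
  rintro x ⟨k, S, y, hS, hl, rfl⟩
  match S, hS, hl with
  | (i, z) :: S, hS, hl =>
    obtain ⟨-, -, -, -, h1, h2⟩ := sing_cons hS
    simp only [res]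
    simp only [List.length_cons] at hl
    exact AddSubgroup.sub_mem _
      (AddSubgroup.subset_closure ⟨k, S, _, h1, by omega, rfl⟩)
      (AddSubgroup.subset_closure ⟨k, S, _, h2, by omega, rfl⟩)

theorem J_zero (m : ℕ) : J m 0 = ⊤ := by
  rw [eq_top_iff]
  intro x _
  induction x using Finsupp.induction_linear with
  | zero => exact (J m 0).zero_mem
  | add x y hx hy => exact (J m 0).add_mem (hx trivial) (hy trivial)
  | single x n =>
    have h1 : Finsupp.single x (1 : ℤ) ∈ J m 0 := by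
      obtain ⟨⟨⟨k, b⟩, hd⟩, rfl⟩ := Quot.exists_rep x
      apply AddSubgroup.subset_closure
      refine ⟨k, [], b, ⟨hd.1, by simp⟩, rfl, ?_⟩
      simp only [res]
      unfold evS
      rw [dif_pos hd]
      rfl
    have h2 := (J m 0).zsmul_mem h1 n
    rwa [Finsupp.smul_single, smul_eq_mul, mul_one] at h2

theorem t_JE (hG : S_GAMI) : S_JE := by
  refine ⟨J_zero, J_succ_le, fun m d e h => cls_of_Mk h, ?_⟩
  intro m n d e h
  induction h with
  | rel d e h =>
    obtain ⟨hd, he, hM | hI⟩ := h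
    · rw [cls_of_Mk (Relation.EqvGen.rel _ _ ⟨hd, he, hM⟩), sub_self]
      exact AddSubgroup.zero_mem _
    · obtain ⟨hk, x, hx, hb⟩ := hI
      obtain ⟨k, b⟩ := d
      obtain ⟨k', b'⟩ := e
      dsimp only at hk hx hb
      subst hk
      subst hb
      have h1 := hG (m + k) n (AA m ⧸ J m (n + 1))
        (fun b => QuotientAddGroup.mk' (J m (n + 1)) (evS (m := m) uni k b)) (by
          intro S y hS hl
          rw [res_map, QuotientAddGroup.mk'_apply, QuotientAddGroup.eq_zero_iff]
          exact AddSubgroup.subset_closure ⟨k, S, y, hS, hl, rfl⟩) b hd.1 x hx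
      rw [← sub_eq_zero, ← map_sub, QuotientAddGroup.mk'_apply, QuotientAddGroup.eq_zero_iff] at h1
      have h2 := AddSubgroup.neg_mem _ h1
      rw [neg_sub] at h2
      exact h2
  | refl d =>
    rw [sub_self]
    exact AddSubgroup.zero_mem _
  | symm d e _ ih =>
    have := AddSubgroup.neg_mem _ ih
    rwa [neg_sub] at this
  | trans d e f _ _ ih1 ih2 =>
    have := AddSubgroup.add_mem _ ih1 ih2
    rwa [sub_add_sub_cancel] at this

/-! ## The product -/

theorem quot_eq_of_Mk {m : ℕ} {d e : RD} (hd : Val m d) (he : Val m e) (h : Mk m d e) :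
    (Quot.mk _ ⟨d, hd⟩ : SLink m) = Quot.mk _ ⟨e, he⟩ := by
  have h1 := cls_of_Mk h
  rw [cls_of_val hd, cls_of_val he] at h1
  exact Finsupp.single_left_injective one_ne_zero h1

/-- The product of string links. -/
def mulS (hM : S_MUL) (m : ℕ) : SLink m → SLink m → SLink m :=
  Quot.lift₂ (fun d e : SData m => (Quot.mk _ (⟨mul m d.1 e.1, hM.1 m d.1 e.1 d.2 e.2⟩ : SData m) :
      SLink m))
    (by
      intro d e e' h
      apply quot_eq_of_Mk
      exact hM.2.2.2.1 m d.1 d.1 e.1 e'.1 d.2 d.2 e.2 e'.2 (Relation.EqvGen.refl _)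
        (Relation.EqvGen.rel _ _ ⟨e.2, e'.2, h⟩))
    (by
      intro d d' e h
      apply quot_eq_of_Mk
      exact hM.2.2.2.1 m d.1 d'.1 e.1 e.1 d.2 d'.2 e.2 e.2
        (Relation.EqvGen.rel _ _ ⟨d.2, d'.2, h⟩) (Relation.EqvGen.refl _))

/-- The bilinear extension of the product. -/
def BB (hM : S_MUL) (m : ℕ) : AA m →+ AA m →+ AA m :=
  Finsupp.liftAddHom (fun x : SLink m =>
    zmultiplesHom (AA m →+ AA m) (Finsupp.mapDomain.addMonoidHom (mulS hM m x)))

theorem BB_uni (hM : S_MUL) (m : ℕ) (x y : SLink m) :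
    BB hM m (uni x) (uni y) = uni (mulS hM m x y) := by
  unfold BB uni
  rw [Finsupp.liftAddHom_apply_single, zmultiplesHom_apply, one_zsmul]
  change Finsupp.mapDomain _ _ = _
  rw [Finsupp.mapDomain_single]

theorem BB_cls (hM : S_MUL) {m : ℕ} {d e : RD} (hd : Val m d) (he : Val m e) :
    BB hM m (cls m d) (cls m e) = cls m (mul m d e) := by
  rw [cls_of_val hd, cls_of_val he, cls_of_val (hM.1 m d e hd he)]
  exact BB_uni hM m (Quot.mk _ ⟨d, hd⟩) (Quot.mk _ ⟨e, he⟩)

theorem BN_mono {N N' : ℕ} (h : N ≤ N') : BN N ≤ BN N' := by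
  apply Subgroup.closure_mono
  rintro x ⟨i, hi, rfl⟩
  exact ⟨i, by omega, rfl⟩

theorem s_mem' {N i : ℕ} (h : i + 1 < N) : s i ∈ BN N := Subgroup.subset_closure ⟨i, h, rfl⟩

theorem dn_mem' {N : ℕ} (i t : ℕ) (h : i + t < N) : dn i t ∈ BN N := by
  induction t with
  | zero => exact (BN N).one_mem
  | succ t ih => exact (BN N).mul_mem (s_mem' (by omega)) (ih (by omega))

theorem psi_dn (m t : ℕ) : psi m (dn m t) = dn (m + 1) t := by
  induction t with
  | zero => simp [dn]
  | succ t ih =>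
    simp only [dn]
    rw [map_mul, ih, psi_s, if_neg (by omega), if_neg (by omega)]
    congr 2
    omega

theorem dn_succ_left (m t : ℕ) : dn m (t + 1) = dn (m + 1) t * s m := by
  induction t with
  | zero => simp [dn]
  | succ t ih =>
    have h1 : dn m (t + 1 + 1) = s (m + (t + 1)) * dn m (t + 1) := rfl
    have h2 : dn (m + 1) (t + 1) = s (m + 1 + t) * dn (m + 1) t := rfl
    rw [h1, ih, h2, mul_assoc]
    congr 2
    omega

theorem psiK_s (m k i : ℕ) : psiK m k (s i) =
    if i + 1 < m then s i else if i + 1 = m then dn m k * s i * (dn m k)⁻¹ else s (i + k) := by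
  induction k with
  | zero =>
    simp only [psiK, MonoidHom.id_apply, dn, Nat.add_zero, one_mul, inv_one, mul_one]
    split_ifs <;> rfl
  | succ k ih =>
    have h0 : psiK m (k + 1) (s i) = psi m (psiK m k (s i)) := rfl
    rw [h0, ih]
    split_ifs with h1 h2
    · rw [psi_s, if_pos h1]
    · rw [map_mul, map_mul, map_inv, psi_dn, psi_s, if_neg h1, if_pos h2, dn_succ_left]
      group
    · rw [psi_s, if_neg (by omega), if_neg (by omega)]
      rfl

theorem val_iff_of_pm {m k : ℕ} {b b' : Br} (hb : b ∈ BN (m + k)) (hb' : b' ∈ BN (m + k))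
    (h : pm b = pm b') : Val m ⟨k, b⟩ ↔ Val m ⟨k, b'⟩ := by
  unfold Val
  simp only [h, hb, hb', true_and]

theorem top_mem {N : ℕ} (S : List (ℕ × Br)) : ∀ y, Sing N S y → top S y ∈ BN N := by
  induction S with
  | nil => intro y h; exact h.1
  | cons p S ih =>
    intro y h
    obtain ⟨i, z⟩ := p
    obtain ⟨-, -, -, -, h1, -⟩ := sing_cons h
    exact ih _ h1

theorem res_not_val {m k : ℕ} {S : List (ℕ × Br)} {y : Br} (hS : Sing (m + k) S y)
    (h : ¬ Val m ⟨k, top S y⟩) : res (evS (m := m) uni k) S y = 0 := by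
  rw [res_congr (g := fun _ => 0) S y hS, res_zero]
  intro b hb hbt
  unfold evS
  rw [dif_neg]
  intro hv
  exact h ((val_iff_of_pm hb (top_mem S y hS) hbt).mp hv)

theorem cls_mk (m k : ℕ) (b : Br) : cls m ⟨k, b⟩ = evS (m := m) uni k b := rfl

theorem t_BIL (hPsi : S_PSI) (hM : S_MUL) : S_BIL := by
  intro m hm
  refine ⟨BB hM m, fun d e hd he => BB_cls hM hd he, ?_⟩
  have hPsi2 := hPsi.2.1
  intro a b x y hx hy
  -- generators
  have key : ∀ k S y k' S' y', Sing (m + k) S y → Sing (m + k') S' y' → S.length = a →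
      S'.length = b → BB hM m (res (evS (m := m) uni k) S y) (res (evS (m := m) uni k') S' y') ∈
        J m (a + b) := by
    intro k S y k' S' y' hS hS' hl hl'
    by_cases h1 : Val m ⟨k, top S y⟩
    swap
    · rw [res_not_val hS h1, map_zero, AddMonoidHom.zero_apply]
      exact AddSubgroup.zero_mem _
    by_cases h2 : Val m ⟨k', top S' y'⟩
    swap
    · rw [res_not_val hS' h2, map_zero]
      exact AddSubgroup.zero_mem _
    have hle : BN (m + k) ≤ BN (m + k + k') := BN_mono (by omega)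
    -- the image of the second word
    obtain ⟨T, v, hv, hTl, hT, hF⟩ := res_hom (N := m + k + k') (N' := m + k') (psiK m k)
      (fun y hy => hPsi2 m k k' y hy) (by
        intro i hi
        rw [psiK_s]
        split_ifs with g1 g2
        · exact ⟨i, 1, by omega, (BN _).one_mem, by group⟩
        · exact ⟨i, dn m k, by omega, BN_mono (by omega) (dn_mem' (N := m + k + 1) m k (by omega)), rfl⟩
        · exact ⟨i + k, 1, by omega, (BN _).one_mem, by group⟩) S' hS'.2
    have hu : psiK m k y' * v ∈ BN (m + k + k') :=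
      (BN _).mul_mem (hPsi2 m k k' y' hS'.1) hv
    obtain ⟨R, w, hw, hRl, hR, hF'⟩ := res_app T (psiK m k y' * v) hu hT S
      (fun p hp => ⟨by have := (hS.2 p hp).1; omega, hle (hS.2 p hp).2⟩)
    have e1 : BB hM m (res (evS (m := m) uni k) S y) (res (evS (m := m) uni k') S' y') =
        res (fun b => res (fun b' => BB hM m (evS (m := m) uni k b) (evS (m := m) uni k' b')) S' y')
          S y := by
      have e2 : ∀ b, res (fun b' => BB hM m (evS (m := m) uni k b) (evS (m := m) uni k' b')) S' y' =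
          ((BB hM m).flip (res (evS (m := m) uni k') S' y')) (evS (m := m) uni k b) := by
        intro b
        rw [res_map (BB hM m (evS (m := m) uni k b)) (evS (m := m) uni k') S' y']
        rfl
      simp only [e2]
      rw [res_map ((BB hM m).flip (res (evS (m := m) uni k') S' y')) (evS (m := m) uni k) S y]
      rfl
    have e3 : res (fun b => res (fun b' => BB hM m (evS (m := m) uni k b) (evS (m := m) uni k' b'))
        S' y') S y = res (evS (m := m) uni (k + k')) R (y * w) := by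
      rw [← hF' (AA m) (evS (m := m) uni (k + k')) y]
      apply res_congr (N := m + k) S y hS
      intro b hb hbt
      rw [← res_left, ← hF (AA m) (fun x => evS (m := m) uni (k + k') (b * x)) y']
      apply res_congr (N := m + k') S' y' hS'
      intro b' hb' hbt'
      have v1 : Val m ⟨k, b⟩ := (val_iff_of_pm hb (top_mem S y hS) hbt).mpr h1
      have v2 : Val m ⟨k', b'⟩ := (val_iff_of_pm hb' (top_mem S' y' hS') hbt').mpr h2
      rw [← cls_mk, ← cls_mk, BB_cls hM v1 v2]
      rfl
    rw [e1, e3]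
    apply AddSubgroup.subset_closure
    refine ⟨k + k', R, y * w, ⟨?_, ?_⟩, by omega, rfl⟩
    · rw [← add_assoc]
      exact (BN _).mul_mem (hle hS.1) hw
    · rw [← add_assoc]
      exact hR
  have h1 : ∀ k S y, Sing (m + k) S y → S.length = a → ∀ z ∈ J m b,
      BB hM m (res (evS (m := m) uni k) S y) z ∈ J m (a + b) := by
    intro k S y hS hl z hz
    induction hz using AddSubgroup.closure_induction with
    | mem z hz =>
      obtain ⟨k', S', y', hS', hl', rfl⟩ := hz
      exact key k S y k' S' y' hS hS' hl hl'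
    | zero =>
      rw [map_zero]
      exact AddSubgroup.zero_mem _
    | add z z' _ _ ih1 ih2 =>
      rw [map_add]
      exact AddSubgroup.add_mem _ ih1 ih2
    | neg z _ ih =>
      rw [map_neg]
      exact AddSubgroup.neg_mem _ ih
  induction hx using AddSubgroup.closure_induction with
  | mem z hz =>
    obtain ⟨k, S, y', hS, hl, rfl⟩ := hz
    exact h1 k S y' hS hl y hy
  | zero =>
    rw [map_zero, AddMonoidHom.zero_apply]
    exact AddSubgroup.zero_mem _
  | add z z' _ _ ih1 ih2 =>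
    rw [map_add, AddMonoidHom.add_apply]
    exact AddSubgroup.add_mem _ ih1 ih2
  | neg z _ ih =>
    rw [map_neg, AddMonoidHom.neg_apply]
    exact AddSubgroup.neg_mem _ ih

end Pool.Agent.K1H3.LK
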