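import Mathlib
import Pool.Agent.K1H35.LK.Defs

/-! # The lower central series of the pure braid group (T8 of helper35's plan for MP_5b16f0_gt) -/

set_option autoImplicit false

noncomputable section

namespace Pool.Agent.K1H3.LK

open Pool.Agent.K1H35.LK
open scoped commutatorElement

theorem comm_comm_mem {B : Type} [Group B] (P D : Subgroup B)
    (hD : ∀ p ∈ P, ∀ d ∈ D, p * d * p⁻¹ ∈ D) (x : B) (hx : x ∈ P)
    (hc : ∀ y ∈ P, ∀ p ∈ P, ⁅⁅x, y⁆, p⁆ ∈ D) : ∀ y ∈ P, ∀ z ∈ P, ⁅x, ⁅y, z⁆⁆ ∈ D := by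
  intro y hy z hz
  have hDn : (D.subgroupOf P).Normal := by
    refine ⟨fun d hd p => ?_⟩
    rw [Subgroup.mem_subgroupOf] at hd ⊢
    exact hD _ p.2 _ hd
  let π : P →* P ⧸ (D.subgroupOf P) := QuotientGroup.mk' _
  have hπ : ∀ p : P, π p = 1 ↔ (p : B) ∈ D := by
    intro p
    rw [QuotientGroup.mk'_apply, QuotientGroup.eq_one_iff, Subgroup.mem_subgroupOf]
  have key : ∀ X Y Z : P ⧸ (D.subgroupOf P), (∀ p : P ⧸ (D.subgroupOf P), ⁅⁅X, Y⁆, p⁆ = 1) →
      (∀ p : P ⧸ (D.subgroupOf P), ⁅⁅X, Z⁆, p⁆ = 1) →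
      ⁅X, ⁅Y, Z⁆⁆ = 1 := by
    intro X Y Z h1 h2
    have c1 : ∀ p : P ⧸ (D.subgroupOf P), ⁅X, Y⁆ * p = p * ⁅X, Y⁆ := fun p => commutatorElement_eq_one_iff_mul_comm.mp (h1 p)
    have c2 : ∀ p : P ⧸ (D.subgroupOf P), ⁅X, Z⁆ * p = p * ⁅X, Z⁆ := fun p => commutatorElement_eq_one_iff_mul_comm.mp (h2 p)
    rw [commutatorElement_eq_one_iff_mul_comm]
    have e1 : X * Y = ⁅X, Y⁆ * (Y * X) := by
      rw [commutatorElement_def]; group
    have e2 : X * Z = ⁅X, Z⁆ * (Z * X) := by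
      rw [commutatorElement_def]; group
    have e1' : X * Y * X⁻¹ = ⁅X, Y⁆ * Y := by
      rw [commutatorElement_def]; group
    have e2' : X * Z * X⁻¹ = ⁅X, Z⁆ * Z := by
      rw [commutatorElement_def]; group
    have e3 : X * ⁅Y, Z⁆ * X⁻¹ = ⁅Y, Z⁆ := by
      have : X * ⁅Y, Z⁆ * X⁻¹ = (X * Y * X⁻¹) * (X * Z * X⁻¹) * (X * Y * X⁻¹)⁻¹ *
          (X * Z * X⁻¹)⁻¹ := by
        rw [commutatorElement_def]; group
      rw [this, e1', e2']
      generalize ⁅X, Y⁆ = u at *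
      generalize ⁅X, Z⁆ = v at *
      calc u * Y * (v * Z) * (u * Y)⁻¹ * (v * Z)⁻¹
          = u * (Y * v) * Z * Y⁻¹ * u⁻¹ * Z⁻¹ * v⁻¹ := by group
        _ = u * (v * Y) * Z * Y⁻¹ * u⁻¹ * Z⁻¹ * v⁻¹ := by rw [c2]
        _ = (u * (v * Y * Z * Y⁻¹)) * u⁻¹ * Z⁻¹ * v⁻¹ := by group
        _ = ((v * Y * Z * Y⁻¹) * u) * u⁻¹ * Z⁻¹ * v⁻¹ := by rw [c1]
        _ = (v * (Y * Z * Y⁻¹ * Z⁻¹)) * v⁻¹ := by group
        _ = ((Y * Z * Y⁻¹ * Z⁻¹) * v) * v⁻¹ := by rw [c2]
        _ = ⁅Y, Z⁆ := by rw [commutatorElement_def]; group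
    calc X * ⁅Y, Z⁆ = X * ⁅Y, Z⁆ * X⁻¹ * X := by group
      _ = ⁅Y, Z⁆ * X := by rw [e3]
  have hx1 : ∀ (w : P) (p : P ⧸ (D.subgroupOf P)), ⁅⁅π ⟨x, hx⟩, π w⁆, p⁆ = 1 := by
    intro w p
    obtain ⟨q, rfl⟩ := QuotientGroup.mk'_surjective _ p
    change ⁅⁅π ⟨x, hx⟩, π w⁆, π q⁆ = 1
    rw [← map_commutatorElement, ← map_commutatorElement, hπ]
    exact hc _ w.2 _ q.2
  have h := key (π ⟨x, hx⟩) (π ⟨y, hy⟩) (π ⟨z, hz⟩) (hx1 _) (hx1 _)
  rw [← map_commutatorElement, ← map_commutatorElement, hπ] at h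
  exact h

/-- The square of `σ_0`. -/
def tw : Br := s 0 ^ 2

theorem s_mem {N i : ℕ} (h : i + 1 < N) : s i ∈ BN N := Subgroup.subset_closure ⟨i, h, rfl⟩

theorem dn_mem {N : ℕ} (i t : ℕ) (h : i + t < N) : dn i t ∈ BN N := by
  induction t with
  | zero => exact (BN N).one_mem
  | succ t ih => exact (BN N).mul_mem (s_mem (by omega)) (ih (by omega))

theorem s_conj {N : ℕ} (i : ℕ) (h : i + 1 < N) : ∃ g ∈ BN N, s i = g * s 0 * g⁻¹ := by
  induction i with
  | zero => exact ⟨1, (BN N).one_mem, by group⟩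
  | succ i ih =>
    obtain ⟨g, hg, hs⟩ := ih (by omega)
    refine ⟨s i * s (i + 1) * g, (BN N).mul_mem ((BN N).mul_mem (s_mem (by omega))
      (s_mem (by omega))) hg, ?_⟩
    have hb := s_braid i
    calc s (i + 1) = (s (i + 1) * s i * s (i + 1)) * (s (i + 1))⁻¹ * (s i)⁻¹ := by group
      _ = (s i * s (i + 1) * s i) * (s (i + 1))⁻¹ * (s i)⁻¹ := by rw [hb]
      _ = (s i * s (i + 1)) * (g * s 0 * g⁻¹) * (s (i + 1))⁻¹ * (s i)⁻¹ := by
        rw [← hs]
      _ = _ := by group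

theorem Ag_conj {N i t : ℕ} (h : i + 1 + t < N) : ∃ g ∈ BN N, Ag i t = g * tw * g⁻¹ := by
  obtain ⟨g, hg, hs⟩ := s_conj (N := N) i (by omega)
  refine ⟨dn (i + 1) t * g, (BN N).mul_mem (dn_mem _ _ h) hg, ?_⟩
  unfold Ag tw
  rw [hs]
  simp only [pow_two]
  group

theorem PN_le (hPu : S_PURE) (N : ℕ) :
    PN N ≤ Subgroup.closure {x | ∃ g ∈ BN N, x = g * tw * g⁻¹} := by
  refine (hPu N).trans ?_
  rw [Subgroup.closure_le]
  rintro x ⟨i, t, h, rfl⟩
  obtain ⟨g, hg, he⟩ := Ag_conj h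
  exact Subgroup.subset_closure ⟨g, hg, he⟩

theorem mem_PN {N : ℕ} {x : Br} : x ∈ PN N ↔ pm x = 1 ∧ x ∈ BN N := by
  unfold PN
  rw [Subgroup.mem_inf, MonoidHom.mem_ker]

theorem tw_mem {N : ℕ} (h : 2 ≤ N) : tw ∈ PN N := by
  rw [mem_PN]
  refine ⟨?_, (BN N).pow_mem (s_mem (by omega)) 2⟩
  rw [tw, map_pow, pm_s, pow_two, Equiv.swap_mul_self]

/-- Conjugation keeps `PN N`. -/
theorem conj_PN {N : ℕ} {g x : Br} (hg : g ∈ BN N) (hx : x ∈ PN N) : g * x * g⁻¹ ∈ PN N := by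
  rw [mem_PN] at hx ⊢
  obtain ⟨h1, h2⟩ := hx
  refine ⟨?_, (BN N).mul_mem ((BN N).mul_mem hg h2) ((BN N).inv_mem hg)⟩
  rw [map_mul, map_mul, h1, mul_one, map_inv, mul_inv_cancel]

theorem PN_le_BN (N : ℕ) : PN N ≤ BN N := inf_le_right

/-- The permutation which moves two points into `{0, …, 2n+3}`. -/
theorem perm_exists (n N a b : ℕ) (hN : 2 * n + 4 ≤ N) (ha : a < N) (hb : b < N) (hab : a ≠ b) :
    ∃ τ : Equiv.Perm ℕ, (∀ x, x < 2 * n + 2 → τ x = x) ∧ (∀ x, N ≤ x → τ x = x) ∧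
      τ a < 2 * n + 4 ∧ τ b < 2 * n + 4 := by
  -- first permutation
  obtain ⟨τ₁, h1, h2, h3⟩ : ∃ τ : Equiv.Perm ℕ, (∀ x, x < 2 * n + 2 → τ x = x) ∧
      (∀ x, N ≤ x → τ x = x) ∧ τ a < 2 * n + 3 := by
    by_cases h : a < 2 * n + 3
    · exact ⟨1, fun _ _ => rfl, fun _ _ => rfl, h⟩
    · refine ⟨Equiv.swap a (2 * n + 2), ?_, ?_, ?_⟩
      · intro x hx
        exact Equiv.swap_apply_of_ne_of_ne (by omega) (by omega)
      · intro x hx
        exact Equiv.swap_apply_of_ne_of_ne (by omega) (by omega)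
      · rw [Equiv.swap_apply_left]; omega
  have h4 : τ₁ b < N := by
    by_contra hc
    have h5 : τ₁ (τ₁ b) = τ₁ b := h2 _ (by omega)
    have h6 := τ₁.injective h5
    omega
  have h5 : τ₁ a ≠ τ₁ b := fun h => hab (τ₁.injective h)
  obtain ⟨τ₂, g1, g2, g3, g4⟩ : ∃ τ : Equiv.Perm ℕ, (∀ x, x < 2 * n + 2 → τ x = x) ∧
      (∀ x, N ≤ x → τ x = x) ∧ τ (τ₁ a) < 2 * n + 4 ∧ τ (τ₁ b) < 2 * n + 4 := by
    by_cases h : τ₁ b < 2 * n + 4
    · exact ⟨1, fun _ _ => rfl, fun _ _ => rfl, by simpa using (by omega : τ₁ a < 2 * n + 4), h⟩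
    · refine ⟨Equiv.swap (τ₁ b) (2 * n + 3), ?_, ?_, ?_, ?_⟩
      · intro x hx
        exact Equiv.swap_apply_of_ne_of_ne (by omega) (by omega)
      · intro x hx
        exact Equiv.swap_apply_of_ne_of_ne (by omega) (by omega)
      · rw [Equiv.swap_apply_of_ne_of_ne h5 (by omega)]; omega
      · rw [Equiv.swap_apply_left]; omega
  refine ⟨τ₂ * τ₁, ?_, ?_, g3, g4⟩
  · intro x hx
    rw [Equiv.Perm.mul_apply, h1 x hx, g1 x hx]
  · intro x hx
    rw [Equiv.Perm.mul_apply, h2 x hx, g2 x hx]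

theorem t_LCS (hR : S_REAL) (hG : S_GAM) (hP : S_PLACE) (hPu : S_PURE) : S_LCS := by
  obtain ⟨hR1, hR2, -, hBC, hBN, -, hcomm, hR8, hR9, -⟩ := hR
  obtain ⟨hG1, hG2, hG3, hG4, hG5⟩ := hG
  have hG5' : ∀ N n x p, x ∈ Gam N n → p ∈ PN N → ⁅x, p⁆ ∈ Gam N (n + 1) := hG5
  -- representatives
  have hrep : ∀ n p q : ℕ, p < 2 * n + 4 → q < 2 * n + 4 → p ≠ q →
      ∃ g ∈ BN (2 * n + 4), pm g 0 = p ∧ pm g 1 = q := by
    intro n p q hp hq hpq
    obtain ⟨g, hg, h⟩ := hR9 (2 * n + 4) 2 (fun j => if j = 0 then p else q) (by omega)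
      (by intro j _; split_ifs <;> assumption)
      (by
        intro i j hi hj hij
        split_ifs at hij with h1 h2 h2
        · omega
        · exact absurd hij hpq
        · exact absurd hij.symm hpq
        · omega)
    exact ⟨g, hg, by simpa using h 0 (by omega), by simpa using h 1 (by omega)⟩
  choose! rep hrep1 hrep2 hrep3 using hrep
  intro n
  induction n with
  | zero =>
    refine ⟨{tw}, ?_, ?_⟩
    · intro c hc
      rw [Finset.mem_singleton] at hc
      rw [hc]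
      exact tw_mem (by omega)
    · intro N hN
      change PN N ≤ _
      refine (PN_le hPu N).trans (Subgroup.closure_mono ?_)
      rintro x ⟨g, hg, hx⟩
      exact Or.inl ⟨g, hg, tw, Finset.mem_singleton_self _, hx⟩
  | succ n ih =>
    obtain ⟨C, hC, hCN⟩ := ih
    classical
    let f : Br × (ℕ × ℕ) → Br := fun z =>
      ⁅z.1, rep n z.2.1 z.2.2 * tw * (rep n z.2.1 z.2.2)⁻¹⁆
    let I : Finset (ℕ × ℕ) := ((Finset.range (2 * n + 4)) ×ˢ (Finset.range (2 * n + 4))).filter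
      (fun z => z.1 ≠ z.2)
    have hI : ∀ p q, (p, q) ∈ I ↔ (p < 2 * n + 4 ∧ q < 2 * n + 4) ∧ p ≠ q := by
      intro p q
      simp [I, Finset.mem_filter, Finset.mem_product]
    refine ⟨(C ×ˢ I).image f, ?_, ?_⟩
    · intro x hx
      rw [Finset.mem_image] at hx
      obtain ⟨⟨c, p, q⟩, hc, rfl⟩ := hx
      rw [Finset.mem_product, hI] at hc
      obtain ⟨hc, ⟨hp, hq⟩, hpq⟩ := hc
      have h1 : c ∈ Gam (2 * n + 4) n := hG2 _ _ _ (by omega) (hC c hc)
      exact hG5' (2 * n + 4) n _ _ h1 (conj_PN (hrep1 n p q hp hq hpq) (tw_mem (by omega)))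
    · intro N hN
      have hN4 : 2 * n + 4 ≤ N := by omega
      set C' := (C ×ˢ I).image f with hC'
      set K := Subgroup.closure ({x | ∃ g ∈ BN N, ∃ c ∈ C', x = g * c * g⁻¹} ∪
        (Gam N (n + 1 + 1) : Set Br)) with hK
      have hK1 : Gam N (n + 2) ≤ K := fun x hx => Subgroup.subset_closure (Or.inr hx)
      have hK2 : ∀ g ∈ BN N, ∀ c ∈ C', g * c * g⁻¹ ∈ K := fun g hg c hc =>
        Subgroup.subset_closure (Or.inl ⟨g, hg, c, hc, rfl⟩)
      have hC'G : ∀ c ∈ C', c ∈ Gam N (n + 1) := by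
        intro x hx
        rw [hC', Finset.mem_image] at hx
        obtain ⟨⟨c, p, q⟩, hc, rfl⟩ := hx
        rw [Finset.mem_product, hI] at hc
        obtain ⟨hc, ⟨hp, hq⟩, hpq⟩ := hc
        have h1 : c ∈ Gam (2 * n + 4) n := hG2 _ _ _ (by omega) (hC c hc)
        exact hG2 _ _ _ hN4 (hG5' (2 * n + 4) n _ _ h1 (conj_PN (hrep1 n p q hp hq hpq)
          (tw_mem (by omega))))
      have hK3 : K ≤ Gam N (n + 1) := by
        rw [hK, Subgroup.closure_le]
        rintro x (⟨g, hg, c, hc, rfl⟩ | hx)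
        · exact hG1 _ _ _ _ hg (hC'G c hc)
        · exact hG3 _ _ hx
      -- K is normalized by PN N
      have hK4 : ∀ p ∈ PN N, ∀ k ∈ K, p * k * p⁻¹ ∈ K := by
        intro p hp k hk
        have h1 := hG5' N (n + 1) k p (hK3 hk) hp
        have h2 := hK1 ((Gam N (n + 2)).inv_mem h1)
        have e : p * k * p⁻¹ = ⁅k, p⁆⁻¹ * k := by
          rw [commutatorElement_def]; group
        rw [e]
        exact K.mul_mem h2 hk
      have hGP : ∀ j x, x ∈ Gam N j → x ∈ PN N := fun j x hx => hG4 _ _ hx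
      -- the case of generators
      have hgen : ∀ c ∈ C, ∀ g ∈ BN N, ∀ h ∈ BN N, ⁅g * c * g⁻¹, h * tw * h⁻¹⁆ ∈ K := by
        intro c hc g hg h hh
        have hfB : g⁻¹ * h ∈ BN N := (BN N).mul_mem ((BN N).inv_mem hg) hh
        set φ := g⁻¹ * h with hφ
        have hφ0 : pm φ 0 < N := hR2 N _ hfB _ (by omega)
        have hφ1 : pm φ 1 < N := hR2 N _ hfB _ (by omega)
        have hφ01 : pm φ 0 ≠ pm φ 1 := by
          intro he
          have := (pm φ).injective he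
          omega
        obtain ⟨τ, t1, t2, t3, t4⟩ := perm_exists n N (pm φ 0) (pm φ 1) hN4 hφ0 hφ1 hφ01
        obtain ⟨u, hu, hut⟩ := hR8 (2 * n + 2) N τ t1 t2
        have huB : u ∈ BN N := hBC _ _ hu
        have hcBN : c ∈ BN (2 * n + 2) := PN_le_BN _ (hG4 _ _ (hC c hc))
        have hcu : Commute c u := hcomm _ _ _ _ hcBN hu
        set p := pm (u * φ) 0 with hp
        set q := pm (u * φ) 1 with hq
        have hp' : p < 2 * n + 4 := by
          rw [hp, map_mul, Equiv.Perm.mul_apply, hut]; exact t3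
        have hq' : q < 2 * n + 4 := by
          rw [hq, map_mul, Equiv.Perm.mul_apply, hut]; exact t4
        have hpq : p ≠ q := by
          intro he
          have := (pm (u * φ)).injective he
          omega
        have hrB : rep n p q ∈ BN N := hBN _ _ hN4 (hrep1 n p q hp' hq' hpq)
        have hz := hP 2 N 0 tw (rep n p q) (u * φ) (by omega) (tw_mem (by omega)) hrB
          ((BN N).mul_mem huB hfB) (by
            intro j hj
            have hj' : j = 0 ∨ j = 1 := by omega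
            rcases hj' with rfl | rfl
            · rw [hrep2 n p q hp' hq' hpq]
            · rw [hrep3 n p q hp' hq' hpq])
        set w := rep n p q * tw * (rep n p q)⁻¹ with hw
        set z := w⁻¹ * (u * φ * tw * (u * φ)⁻¹) with hzdef
        have hcG : c ∈ Gam N n := hG2 _ _ _ (by omega) (hC c hc)
        have hcP : c ∈ PN N := hGP _ _ hcG
        have hcz : ⁅c, z⁆ ∈ Gam N (n + 2) := by
          have hz1 : z ∈ ⁅PN N, PN N⁆ := hz
          let T : Subgroup Br :=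
            { carrier := {z | z ∈ PN N ∧ ⁅c, z⁆ ∈ Gam N (n + 2)}
              one_mem' := by
                refine ⟨(PN N).one_mem, ?_⟩
                rw [commutatorElement_one_right]
                exact (Gam N (n + 2)).one_mem
              mul_mem' := by
                rintro a b ⟨ha, ha'⟩ ⟨hb, hb'⟩
                refine ⟨(PN N).mul_mem ha hb, ?_⟩
                have e : ⁅c, a * b⁆ = ⁅c, a⁆ * (a * ⁅c, b⁆ * a⁻¹) := by
                  simp only [commutatorElement_def]; group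
                rw [e]
                exact (Gam N (n + 2)).mul_mem ha' (hG1 _ _ _ _ (PN_le_BN _ ha) hb')
              inv_mem' := by
                rintro a ⟨ha, ha'⟩
                refine ⟨(PN N).inv_mem ha, ?_⟩
                have e : ⁅c, a⁻¹⁆ = a⁻¹ * ⁅c, a⁆⁻¹ * (a⁻¹)⁻¹ := by
                  simp only [commutatorElement_def]; group
                rw [e]
                exact hG1 _ _ _ _ (PN_le_BN _ ((PN N).inv_mem ha)) ((Gam N (n + 2)).inv_mem ha') }
          have hT : ⁅PN N, PN N⁆ ≤ T := by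
            rw [Subgroup.commutator_le]
            intro a ha b hb
            refine ⟨?_, ?_⟩
            · exact (PN N).mul_mem ((PN N).mul_mem ((PN N).mul_mem ha hb) ((PN N).inv_mem ha))
                ((PN N).inv_mem hb)
            · refine comm_comm_mem (PN N) (Gam N (n + 2)) ?_ c hcP ?_ a ha b hb
              · intro p hp d hd
                exact hG1 _ _ _ _ (PN_le_BN _ hp) hd
              · intro y hy p hp
                exact hG5' _ _ _ _ (hG5' _ _ _ _ hcG hy) hp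
          exact (hT hz1).2
        have hc' : ⁅c, w⁆ ∈ C' := by
          rw [hC', Finset.mem_image]
          exact ⟨(c, p, q), by rw [Finset.mem_product, hI]; exact ⟨hc, ⟨hp', hq'⟩, hpq⟩, rfl⟩
        have e1 : u * φ * tw * (u * φ)⁻¹ = w * z := by rw [hzdef]; group
        have hcu' : u * c * u⁻¹ = c := by rw [← hcu.eq]; group
        have e2 : ⁅g * c * g⁻¹, h * tw * h⁻¹⁆ = (g * u⁻¹) * ⁅c, w⁆ * (g * u⁻¹)⁻¹ *
            ((g * u⁻¹ * w) * ⁅c, z⁆ * (g * u⁻¹ * w)⁻¹) := by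
          have e3 : ⁅g * c * g⁻¹, h * tw * h⁻¹⁆ =
              (g * u⁻¹) * ⁅u * c * u⁻¹, u * φ * tw * (u * φ)⁻¹⁆ * (g * u⁻¹)⁻¹ := by
            rw [hφ]
            simp only [commutatorElement_def]; group
          rw [e3, hcu', e1]
          simp only [commutatorElement_def]; group
        rw [e2]
        have hguB : g * u⁻¹ ∈ BN N := (BN N).mul_mem hg ((BN N).inv_mem huB)
        refine K.mul_mem (hK2 _ hguB _ hc') (hK1 (hG1 _ _ _ _ ?_ hcz))
        refine (BN N).mul_mem hguB ?_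
        exact (BN N).mul_mem ((BN N).mul_mem hrB (PN_le_BN _ (tw_mem (by omega))))
          ((BN N).inv_mem hrB)
      -- second argument
      have hstep2 : ∀ c ∈ C, ∀ g ∈ BN N, ∀ y ∈ PN N, ⁅g * c * g⁻¹, y⁆ ∈ K := by
        intro c hc g hg
        set X := g * c * g⁻¹ with hX
        let T : Subgroup Br :=
          { carrier := {z | z ∈ PN N ∧ ⁅X, z⁆ ∈ K}
            one_mem' := by
              refine ⟨(PN N).one_mem, ?_⟩
              rw [commutatorElement_one_right]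
              exact K.one_mem
            mul_mem' := by
              rintro a b ⟨ha, ha'⟩ ⟨hb, hb'⟩
              refine ⟨(PN N).mul_mem ha hb, ?_⟩
              have e : ⁅X, a * b⁆ = ⁅X, a⁆ * (a * ⁅X, b⁆ * a⁻¹) := by
                simp only [commutatorElement_def]; group
              rw [e]
              exact K.mul_mem ha' (hK4 _ ha _ hb')
            inv_mem' := by
              rintro a ⟨ha, ha'⟩
              refine ⟨(PN N).inv_mem ha, ?_⟩
              have e : ⁅X, a⁻¹⁆ = a⁻¹ * ⁅X, a⁆⁻¹ * (a⁻¹)⁻¹ := by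
                simp only [commutatorElement_def]; group
              rw [e]
              exact hK4 _ ((PN N).inv_mem ha) _ (K.inv_mem ha') }
        have hT : PN N ≤ T := by
          refine (PN_le hPu N).trans ?_
          rw [Subgroup.closure_le]
          rintro x ⟨h, hh, rfl⟩
          exact ⟨conj_PN hh (tw_mem (by omega)), hgen c hc g hg h hh⟩
        exact fun y hy => (hT hy).2
      -- first argument
      change ⁅Gam N n, PN N⁆ ≤ K
      rw [Subgroup.commutator_le]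
      intro x hx y hy
      let T : Subgroup Br :=
        { carrier := {z | z ∈ PN N ∧ ⁅z, y⁆ ∈ K}
          one_mem' := by
            refine ⟨(PN N).one_mem, ?_⟩
            rw [commutatorElement_one_left]
            exact K.one_mem
          mul_mem' := by
            rintro a b ⟨ha, ha'⟩ ⟨hb, hb'⟩
            refine ⟨(PN N).mul_mem ha hb, ?_⟩
            have e : ⁅a * b, y⁆ = (a * ⁅b, y⁆ * a⁻¹) * ⁅a, y⁆ := by
              simp only [commutatorElement_def]; group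
            rw [e]
            exact K.mul_mem (hK4 _ ha _ hb') ha'
          inv_mem' := by
            rintro a ⟨ha, ha'⟩
            refine ⟨(PN N).inv_mem ha, ?_⟩
            have e : ⁅a⁻¹, y⁆ = a⁻¹ * ⁅a, y⁆⁻¹ * (a⁻¹)⁻¹ := by
              simp only [commutatorElement_def]; group
            rw [e]
            exact hK4 _ ((PN N).inv_mem ha) _ (K.inv_mem ha') }
      have hT : Gam N n ≤ T := by
        refine (hCN N (by omega)).trans ?_
        rw [Subgroup.closure_le]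
        rintro x (⟨g, hg, c, hc, rfl⟩ | hx)
        · have hcG : c ∈ Gam N n := hG2 _ _ _ (by omega) (hC c hc)
          exact ⟨conj_PN hg (hGP _ _ hcG), hstep2 c hc g hg y hy⟩
        · exact ⟨hGP _ _ hx, hK1 (hG5' _ _ _ _ hx hy)⟩
      exact (hT hx).2

end Pool.Agent.K1H3.LK
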