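import Mathlib
import Pool.Agent.K1H35.LK.Defs

/-! # Orbit separation (T14 of helper35's plan for MP_5b16f0_gt) -/

set_option autoImplicit false

noncomputable section

namespace Pool.Agent.K1H3.LK

open Pool.Agent.K1H35.LK

/-- A subgroup all nonzero elements of which generate a fixed nonzero element is a `p`-group. -/
theorem primary_of_socle {R : Type} [AddCommGroup R] (G : AddSubgroup R) (w : R) (hw : w ≠ 0)
    (hwG : w ∈ G) (h : ∀ g ∈ G, g ≠ 0 → w ∈ AddSubgroup.zmultiples g) :
    ∃ p : ℕ, p.Prime ∧ ∀ g ∈ G, ∃ e : ℕ, p ^ e • g = 0 := by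
  -- finite order
  have h1 : ∀ g ∈ G, addOrderOf g ≠ 0 := by
    intro g hg h0
    have hz : ∀ n : ℤ, n ≠ 0 → n • g ≠ 0 := by
      intro n hn hng
      have := (addOrderOf_dvd_iff_zsmul_eq_zero (x := g) (i := n)).mpr hng
      rw [h0] at this
      simp at this
      exact hn this
    have hg0 : g ≠ 0 := by
      intro hg0
      exact hz 1 one_ne_zero (by rw [hg0, smul_zero])
    obtain ⟨c, hc⟩ := AddSubgroup.mem_zmultiples_iff.mp (h g hg hg0)
    have hc0 : c ≠ 0 := by
      rintro rfl
      exact hw (by rw [← hc, zero_smul])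
    have h2c : (2 * c) • g ≠ 0 := hz _ (by omega)
    obtain ⟨d, hd⟩ := AddSubgroup.mem_zmultiples_iff.mp
      (h _ (AddSubgroup.zsmul_mem _ hg _) h2c)
    have he : (c - d * (2 * c)) • g = 0 := by
      rw [sub_smul, mul_smul, hd, hc, sub_self]
    have : c - d * (2 * c) = 0 := by
      by_contra hne
      exact hz _ hne he
    have h3 : c * (1 - 2 * d) = 0 := by linarith [this]
    rcases mul_eq_zero.mp h3 with h4 | h4
    · exact hc0 h4
    · omega
  -- elements of prime order
  have h2 : ∀ g ∈ G, ∀ q : ℕ, q.Prime → q ∣ addOrderOf g → q • w = 0 := by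
    intro g hg q hq hqd
    obtain ⟨m, hm⟩ := hqd
    have hpos : 0 < addOrderOf g := Nat.pos_of_ne_zero (h1 g hg)
    have hm0 : 0 < m := by
      rcases Nat.eq_zero_or_pos m with h0 | h0
      · rw [h0, mul_zero] at hm; omega
      · exact h0
    have hlt : m < addOrderOf g := by
      rw [hm]
      nlinarith [hq.two_le]
    have hv0 : m • g ≠ 0 := by
      intro h0
      have := addOrderOf_le_of_nsmul_eq_zero hm0 h0
      omega
    obtain ⟨d, hd⟩ := AddSubgroup.mem_zmultiples_iff.mp (h _ (AddSubgroup.nsmul_mem _ hg m) hv0)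
    rw [← hd, smul_comm, ← mul_smul q m g, ← hm, addOrderOf_nsmul_eq_zero, smul_zero]
  have hw1 : addOrderOf w ≠ 1 := by
    intro h0
    exact hw (AddMonoid.addOrderOf_eq_one_iff.mp h0)
  obtain ⟨p, hp, hpd⟩ := Nat.exists_prime_and_dvd hw1
  have hpw := h2 w hwG p hp hpd
  refine ⟨p, hp, fun g hg => ?_⟩
  have hn := Nat.eq_prime_pow_of_unique_prime_dvd (n := addOrderOf g) (p := p) (h1 g hg) (by
    intro d hd hdd
    by_contra hne
    have hqw := h2 g hg d hd hdd
    have hcop : Nat.Coprime d p := (Nat.coprime_primes hd hp).mpr hne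
    have hd1 := addOrderOf_dvd_of_nsmul_eq_zero hqw
    have hd2 := addOrderOf_dvd_of_nsmul_eq_zero hpw
    exact hw1 (Nat.eq_one_of_dvd_coprimes hcop hd1 hd2))
  refine ⟨(addOrderOf g).primeFactorsList.length, ?_⟩
  rw [← hn]
  exact addOrderOf_nsmul_eq_zero g

theorem t_SEP : S_SEP := by
  intro M _ hFG F r hF0 hFr hFle H hid hinv hmul hF x x' hxx'
  -- a maximal stable subgroup
  have hnoeth : IsNoetherian ℤ M := by
    haveI : Module.Finite ℤ M := Module.Finite.iff_addGroup_fg.mpr hFG
    infer_instance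
  have hwf : WellFounded ((· > ·) : Submodule ℤ M → Submodule ℤ M → Prop) :=
    (inferInstance : WellFoundedGT (Submodule ℤ M)).wf
  let P : Set (Submodule ℤ M) :=
    {a | (∀ h ∈ H, ∀ y ∈ a, h y ∈ a) ∧ ∀ h ∈ H, h x - x' ∉ a}
  have hP : P.Nonempty := by
    refine ⟨⊥, ?_, ?_⟩
    · intro h _ y hy
      rw [Submodule.mem_bot] at hy ⊢
      rw [hy, map_zero]
    · intro h hh hx
      rw [Submodule.mem_bot] at hx
      exact hxx' h hh (sub_eq_zero.mp hx)
  obtain ⟨a, ⟨haS, haX⟩, hmax⟩ := hwf.has_min P hP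
  have hmax' : ∀ b : Submodule ℤ M, a < b → (∀ h ∈ H, ∀ y ∈ b, h y ∈ b) → ∃ h ∈ H, h x - x' ∈ b := by
    intro b hab hb
    by_contra hcon
    push Not at hcon
    exact hmax b ⟨hb, hcon⟩ hab
  -- vectors fixed modulo a
  let Fix : Submodule ℤ M :=
    { carrier := {z | ∀ h ∈ H, h z - z ∈ a}
      zero_mem' := by
        intro h _
        rw [map_zero, sub_zero]
        exact a.zero_mem
      add_mem' := by
        intro u v hu hv h hh
        have := a.add_mem (hu h hh) (hv h hh)
        have e : h (u + v) - (u + v) = (h u - u) + (h v - v) := by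
          rw [map_add]; abel
        rw [e]; exact this
      smul_mem' := by
        intro c u hu h hh
        have := a.smul_mem c (hu h hh)
        have e : h (c • u) - c • u = c • (h u - u) := by
          rw [map_zsmul, smul_sub]
        rw [e]; exact this }
  have hFix : ∀ z, z ∈ Fix ↔ ∀ h ∈ H, h z - z ∈ a := fun z => Iff.rfl
  have haFix : a ≤ Fix := by
    intro z hz h hh
    exact a.sub_mem (haS h hh z hz) hz
  have hstab : ∀ b : Submodule ℤ M, a ≤ b → b ≤ Fix → ∀ h ∈ H, ∀ y ∈ b, h y ∈ b := by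
    intro b hab hb h hh y hy
    have := b.add_mem (hab (hb hy h hh)) hy
    rwa [sub_add_cancel] at this
  -- a is not everything modulo fixed vectors
  have hatop : a ≠ ⊤ := by
    intro h
    apply haX _ hid
    rw [h]; trivial
  have hex : ∃ y, y ∈ Fix ∧ y ∉ a := by
    by_contra hcon
    push Not at hcon
    have hk : ∀ j, j ≤ r → ∀ y ∈ F (r - j), y ∈ a := by
      intro j
      induction j with
      | zero =>
        intro _ y hy
        rw [Nat.sub_zero, hFr, AddSubgroup.mem_bot] at hy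
        rw [hy]; exact a.zero_mem
      | succ j ih =>
        intro hj y hy
        apply hcon
        intro h hh
        have h1 := hF h hh _ y hy
        have h2 : r - (j + 1) + 1 = r - j := by omega
        rw [h2] at h1
        exact ih (by omega) _ h1
    apply hatop
    rw [eq_top_iff]
    intro y _
    apply hk r le_rfl y
    rw [Nat.sub_self, hF0]
    trivial
  -- the subgroup Z
  let Z : AddSubgroup M :=
    { carrier := {z | z ∈ Fix ∧ ∃ h ∈ H, h x - x - z ∈ a}
      zero_mem' := by
        refine ⟨Fix.zero_mem, _, hid, ?_⟩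
        simp
      add_mem' := by
        rintro u v ⟨hu, h, hh, hu'⟩ ⟨hv, k, hk, hv'⟩
        refine ⟨Fix.add_mem hu hv, _, hmul k hk h hh, ?_⟩
        have e1 := haS h hh _ hv'
        rw [map_sub, map_sub] at e1
        have e2 := hv h hh
        have e : (k.trans h) x - x - (u + v) = (h (k x) - h x - h v) + (h x - x - u) + (h v - v) := by
          rw [AddEquiv.trans_apply]; abel
        rw [e]
        exact a.add_mem (a.add_mem e1 hu') e2
      neg_mem' := by
        rintro u ⟨hu, h, hh, hu'⟩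
        refine ⟨Fix.neg_mem hu, _, hinv h hh, ?_⟩
        have e1 := haS _ (hinv h hh) _ hu'
        rw [map_sub, map_sub, AddEquiv.symm_apply_apply] at e1
        have e2 := hu _ (hinv h hh)
        have e : h.symm x - x - -u = -((x - h.symm x - h.symm u) + (h.symm u - u)) := by
          abel
        rw [e]
        exact a.neg_mem (a.add_mem e1 e2) }
  have hZa : ∀ z, z ∈ Z → z ∈ a := by
    by_contra hcon
    push Not at hcon
    obtain ⟨z₀, hz₀, hz₀a⟩ := hcon
    let Z' : Submodule ℤ M := AddSubgroup.toIntSubmodule Z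
    have hmZ' : ∀ z, z ∈ Z' ↔ z ∈ Z := fun z => Iff.rfl
    have hle : a ≤ Z' := by
      intro z hz
      rw [hmZ']
      refine ⟨haFix hz, _, hid, ?_⟩
      simpa using hz
    have hle2 : Z' ≤ Fix := by
      intro z hz
      exact ((hmZ' z).mp hz).1
    have hlt : a < Z' := lt_of_le_of_ne hle (by
      intro h
      apply hz₀a
      rw [h]
      exact hz₀)
    obtain ⟨h, hh, hb⟩ := hmax' Z' hlt (hstab Z' hle hle2)
    rw [hmZ'] at hb
    have hb' := Z.neg_mem hb
    rw [neg_sub] at hb'
    obtain ⟨hwF, k, hk, hk'⟩ := hb'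
    apply haX _ (hmul k hk h hh)
    have e1 := haS h hh _ hk'
    rw [map_sub, map_sub] at e1
    have e2 := hwF h hh
    have e : (k.trans h) x - x' = (h (k x) - h x - h (x' - h x)) + (h (x' - h x) - (x' - h x)) := by
      rw [AddEquiv.trans_apply]; abel
    rw [e]
    exact a.add_mem e1 e2
  -- the element w₀
  have hltF : a < Fix := lt_of_le_of_ne haFix (by
    intro h
    obtain ⟨y, hy, hya⟩ := hex
    apply hya
    rw [h]; exact hy)
  obtain ⟨h₀, hh₀, hb₀⟩ := hmax' Fix hltF (hstab Fix haFix le_rfl)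
  set w₀ := x' - h₀ x with hw₀
  have hw₀F : w₀ ∈ Fix := by
    have := Fix.neg_mem hb₀
    rwa [neg_sub] at this
  have hw₀a : w₀ ∉ a := by
    intro hc
    apply haX h₀ hh₀
    have := a.neg_mem hc
    rwa [hw₀, neg_sub] at this
  have hwb : ∀ b : Submodule ℤ M, a < b → b ≤ Fix → w₀ ∈ b := by
    intro b hab hbF
    obtain ⟨h, hh, hb⟩ := hmax' b hab (hstab b hab.le hbF)
    have hwF : x' - h x ∈ b := by
      have := b.neg_mem hb
      rwa [neg_sub] at this
    have hd : w₀ - (x' - h x) ∈ Z := by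
      refine ⟨Fix.sub_mem hw₀F (hbF hwF), _, hmul h hh _ (hinv h₀ hh₀), ?_⟩
      -- h₀⁻¹ (h x) - x - (w₀ - w) ∈ a
      have e1 := hw₀F _ (hinv h₀ hh₀)
      have e2 := hbF hwF _ (hinv h₀ hh₀)
      have e : (h.trans h₀.symm) x - x - (w₀ - (x' - h x)) =
          (h₀.symm w₀ - w₀) - (h₀.symm (x' - h x) - (x' - h x)) := by
        rw [AddEquiv.trans_apply, hw₀, map_sub, map_sub, AddEquiv.symm_apply_apply]
        abel
      rw [e]
      exact a.sub_mem e1 e2
    have hda := hab.le (hZa _ hd)
    have := b.add_mem hda hwF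
    rwa [sub_add_cancel] at this
  -- the quotient
  let π : M →+ M ⧸ a.toAddSubgroup := QuotientAddGroup.mk' a.toAddSubgroup
  have hπ : ∀ z, π z = 0 ↔ z ∈ a := by
    intro z
    rw [QuotientAddGroup.mk'_apply, QuotientAddGroup.eq_zero_iff]
    rfl
  obtain ⟨p, hp, hprim⟩ := primary_of_socle (Fix.toAddSubgroup.map π) (π w₀)
    (fun h => hw₀a ((hπ _).mp h)) ⟨w₀, hw₀F, rfl⟩ (by
      rintro g ⟨z, hz, rfl⟩ hz0
      have hza : z ∉ a := fun h => hz0 ((hπ _).mpr h)
      have hzF : z ∈ Fix := hz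
      have hlt : a < a ⊔ Submodule.span ℤ {z} := by
        refine lt_of_le_of_ne le_sup_left ?_
        intro h
        apply hza
        rw [h]
        exact (le_sup_right : _ ≤ a ⊔ Submodule.span ℤ {z}) (Submodule.mem_span_singleton_self z)
      have hleF : a ⊔ Submodule.span ℤ {z} ≤ Fix := by
        refine sup_le haFix ?_
        rw [Submodule.span_singleton_le_iff_mem]
        exact hzF
      have hw := hwb _ hlt hleF
      rw [Submodule.mem_sup] at hw
      obtain ⟨y, hy, t, ht, hyt⟩ := hw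
      rw [Submodule.mem_span_singleton] at ht
      obtain ⟨c, rfl⟩ := ht
      rw [AddSubgroup.mem_zmultiples_iff]
      refine ⟨c, ?_⟩
      rw [← hyt, map_add, (hπ y).mpr hy, zero_add, map_zsmul])
  have hprim' : ∀ z ∈ Fix, ∃ e : ℕ, (p ^ e : ℕ) • z ∈ a := by
    intro z hz
    obtain ⟨e, he⟩ := hprim (π z) ⟨z, hz, rfl⟩
    refine ⟨e, ?_⟩
    rw [← hπ, map_nsmul]
    exact he
  -- the p-power torsion stabilizes
  let T : ℕ →o Submodule ℤ M :=
    { toFun := fun e => a.comap (LinearMap.lsmul ℤ M ((p ^ e : ℕ) : ℤ))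
      monotone' := by
        intro e e' hee y hy
        rw [Submodule.mem_comap, LinearMap.lsmul_apply] at hy ⊢
        obtain ⟨d, rfl⟩ := Nat.exists_eq_add_of_le hee
        have := a.smul_mem ((p ^ d : ℕ) : ℤ) hy
        rw [← mul_smul] at this
        convert this using 2
        push_cast
        ring }
  have hT : ∀ e y, y ∈ T e ↔ (p ^ e : ℕ) • y ∈ a := by
    intro e y
    change (LinearMap.lsmul ℤ M ((p ^ e : ℕ) : ℤ)) y ∈ a ↔ _
    rw [LinearMap.lsmul_apply, natCast_zsmul]
  obtain ⟨E, hE⟩ := monotone_stabilizes_iff_noetherian.mpr hnoeth T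
  have hall : ∀ j, j ≤ r → ∀ y ∈ F (r - j), y ∈ T E := by
    intro j
    induction j with
    | zero =>
      intro _ y hy
      rw [Nat.sub_zero, hFr, AddSubgroup.mem_bot] at hy
      rw [hy]; exact (T E).zero_mem
    | succ j ih =>
      intro hj y hy
      have hz : (p ^ E : ℕ) • y ∈ Fix := by
        intro h hh
        have h1 := hF h hh _ y hy
        have h2 : r - (j + 1) + 1 = r - j := by omega
        rw [h2] at h1
        have h3 := (hT _ _).mp (ih (by omega) _ h1)
        rw [map_nsmul, ← smul_sub]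
        exact h3
      obtain ⟨e, he⟩ := hprim' _ hz
      rw [← mul_smul, ← pow_add] at he
      have h4 : y ∈ T (e + E) := (hT _ _).mpr he
      rw [hE (e + E) (by omega)]
      exact h4
  have htor : ∀ y : M ⧸ a.toAddSubgroup, (p ^ E : ℕ) • y = 0 := by
    intro y
    obtain ⟨z, rfl⟩ := QuotientAddGroup.mk'_surjective _ y
    change (p ^ E : ℕ) • π z = 0
    rw [← map_nsmul, hπ, ← hT]
    apply hall r le_rfl z
    rw [Nat.sub_self, hF0]
    trivial
  have hfin : Finite (M ⧸ a.toAddSubgroup) := by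
    haveI := hFG
    haveI : AddGroup.FG (M ⧸ a.toAddSubgroup) := inferInstance
    refine AddCommGroup.finite_of_fg_torsion _ ?_
    intro y
    rw [isOfFinAddOrder_iff_nsmul_eq_zero]
    exact ⟨p ^ E, pow_pos hp.pos _, htor y⟩
  have hcard : ∃ e, Nat.card (M ⧸ a.toAddSubgroup) = p ^ e := by
    haveI := hfin
    haveI : Fact p.Prime := ⟨hp⟩
    have : IsPGroup p (Multiplicative (M ⧸ a.toAddSubgroup)) := by
      intro y
      refine ⟨E, ?_⟩
      have := htor y.toAdd
      apply Multiplicative.toAdd.injective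
      rw [toAdd_pow, this]
      rfl
    obtain ⟨e, he⟩ := IsPGroup.iff_card.mp this
    exact ⟨e, he⟩
  classical
  refine ⟨p, hp, M ⧸ a.toAddSubgroup, inferInstance, π,
    fun y => if ∃ h ∈ H, π (h x) = y then 1 else 0, hfin, hcard, ?_, ?_⟩
  · intro h hh y
    have hiff : (∃ k ∈ H, π (k x) = π (h y)) ↔ (∃ k ∈ H, π (k x) = π y) := by
      constructor
      · rintro ⟨k, hk, hky⟩
        refine ⟨_, hmul k hk _ (hinv h hh), ?_⟩
        rw [← sub_eq_zero, ← map_sub, hπ] at hky ⊢
        have := haS _ (hinv h hh) _ hky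
        rw [map_sub, AddEquiv.symm_apply_apply] at this
        exact this
      · rintro ⟨k, hk, hky⟩
        refine ⟨_, hmul k hk _ hh, ?_⟩
        rw [← sub_eq_zero, ← map_sub, hπ] at hky ⊢
        have := haS _ hh _ hky
        rw [map_sub] at this
        exact this
    simp only [hiff]
  · have h1 : ∃ h ∈ H, π (h x) = π x := ⟨_, hid, rfl⟩
    have h2 : ¬ ∃ h ∈ H, π (h x) = π x' := by
      rintro ⟨h, hh, hx⟩
      rw [← sub_eq_zero, ← map_sub, hπ] at hx
      exact haX h hh hx
    haveI : Fact p.Prime := ⟨hp⟩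
    simp only [h1, h2, if_true, if_false]
    exact one_ne_zero

end Pool.Agent.K1H3.LK
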